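import Pool.Agent.TH630.Fill.Defs

/-!
# Stratified nilpotent Lie groups in coordinates

Definitions used in the statement of `Pool.Agent.Results.MP_b8ac35_gt.ProductOfFillingExponents`:
a stratification of a group law in triangular polynomial coordinates, the homogeneous dimension,
and the relation `FV ^ {k+1} ≼ r ^ α`.
-/

open scoped ENNReal NNReal

namespace Pool.Agent.U86.Fil

open Pool.Agent.TH630

variable {n : ℕ}

/-- The dilation `x ↦ (t ^ w_i * x_i)_i` of real `n`-space with weights `w`. -/
def dil (w : Fin n → ℕ) (t : ℝ) (x : Fin n → ℝ) : Fin n → ℝ := fun i => t ^ w i * x i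

/-- A stratification of the simply connected nilpotent Lie group `G`: the coordinate `i` belongs
to the layer `V_{w i}` (so that `dim V_j` is the number of `i` with `w i = j`), the dilations
are automorphisms of `G` (the Lie algebra is graded), and the one-parameter subgroups which are
orbits `t ↦ dil w t g` of the dilations, that is the elements `g` of `exp V_1`, generate `G`
(the Lie algebra is generated by `V_1`). -/
structure Stratification (G : NilLaw n) where
  /-- the weight (number of the layer) of a coordinate -/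
  w : Fin n → ℕ
  one_le : ∀ i, 1 ≤ w i
  dil_mul : ∀ t : ℝ, 0 < t → ∀ x y : Fin n → ℝ,
    G.mul (dil w t x) (dil w t y) = dil w t (G.mul x y)
  gen : ∀ x : Fin n → ℝ, ∃ l : List (Fin n → ℝ),
    (∀ g ∈ l, ∀ s t : ℝ, 0 < s → 0 < t → G.mul (dil w s g) (dil w t g) = dil w (s + t) g) ∧
      l.foldr G.mul 0 = x

/-- The homogeneous dimension `∑ j, j * dim V_j`. -/
def Stratification.homDim {G : NilLaw n} (S : Stratification G) : ℕ := ∑ i, S.w i

/-- The relation `FV ^ {k+1}_G ≼ r ^ α`. -/
def FVle (G : NilLaw n) (B : Matrix (Fin n) (Fin n) ℝ) (k : ℕ) (α : ℝ) : Prop :=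
  ∃ C : ℝ, 0 < C ∧ ∀ r : ℝ, 0 ≤ r →
    G.FV B k r ≤ ENNReal.ofReal (C * (C * r + C) ^ α + C * r + C)

end Pool.Agent.U86.Fil
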