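import Pool.Agent.TH630.Fill.Phi
import Pool.Agent.U86.Fil.Defs

/-! # Fillings with arbitrary exponents

Variants of the lemmas of `Pool.Agent.TH630.Fill.Phi` (starting library): the filling functions
are bounded by powers `r ^ α k` instead of `r ^ ((k + 1) / k)`. -/

open MeasureTheory MvPolynomial
open scoped ENNReal NNReal Topology

namespace Pool.Agent.U86.Fil

open Pool.Agent.TH630 Pool.Agent.TH630.NilLaw

variable {n k : ℕ} (G : NilLaw n) (B : Matrix (Fin n) (Fin n) ℝ)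

/-- The exponents `∏ i ∈ [1, j), α i`. -/
noncomputable def pw (α : ℕ → ℝ) (j : ℕ) : ℝ := ∏ i ∈ Finset.Ico 1 j, α i

theorem pw_zero (α : ℕ → ℝ) : pw α 0 = 1 := by simp [pw]
theorem pw_one (α : ℕ → ℝ) : pw α 1 = 1 := by simp [pw]
theorem pw_succ (α : ℕ → ℝ) (j : ℕ) : pw α (j + 2) = pw α (j + 1) * α (j + 1) := by
  rw [pw, pw, Finset.prod_Ico_succ_top (by omega)]

theorem one_le_pw {α : ℕ → ℝ} (hα : ∀ i, 1 ≤ α i) (j : ℕ) : 1 ≤ pw α j := by
  rw [pw]
  exact Finset.one_le_prod fun i _ => hα i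

theorem pw_mono {α : ℕ → ℝ} (hα : ∀ i, 1 ≤ α i) {i j : ℕ} (h : i ≤ j) : pw α i ≤ pw α j := by
  rw [pw, pw]
  have h1 : Finset.Ico 1 i ⊆ Finset.Ico 1 j := Finset.Ico_subset_Ico_right h
  rw [← Finset.prod_sdiff h1]
  have h2 : (1 : ℝ) ≤ ∏ i ∈ Finset.Ico 1 j \ Finset.Ico 1 i, α i :=
    Finset.one_le_prod fun i _ => hα i
  have h3 : (0 : ℝ) ≤ ∏ i ∈ Finset.Ico 1 i, α i :=
    Finset.prod_nonneg fun i _ => by linarith [hα i]
  nlinarith

/-- Fillings at scale `ρ`. -/
theorem exists_filling {j : ℕ} {a0 : ℝ} (ha0 : 1 ≤ a0) (hFV : FVle G B (j + 1) a0)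
    (A : ℝ) (hA : 0 ≤ A) (p : ℝ) (hp : 0 ≤ p) :
    ∃ A' : ℝ, 0 < A' ∧ ∀ ρ : ℝ, 1 ≤ ρ → ∀ a : Chain n (j + 1), bdry a = 0 →
      G.mass B a ≤ ENNReal.ofReal (A * ρ ^ p) →
      ∃ b : Chain n (j + 2), bdry b = a ∧ G.mass B b ≤ ENNReal.ofReal (A' * ρ ^ (p * a0)) := by
  obtain ⟨C, hC0, hC⟩ := hFV
  refine ⟨C * (C * A + C) ^ a0 + C * A + C + 1, by positivity, fun ρ hρ a ha hm => ?_⟩
  have hρ0 : 0 ≤ ρ := by linarith
  have hρp : 1 ≤ ρ ^ p := Real.one_le_rpow hρ hp
  have h1 : (⨅ (b : Chain n (j + 1 + 1)) (_ : bdry b = a), G.mass B b) ≤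
      G.FV B (j + 1) (A * ρ ^ p) :=
    le_iSup_of_le a (le_iSup_of_le (show IsCycle a from ha) (le_iSup_of_le hm le_rfl))
  have h2 := h1.trans (hC (A * ρ ^ p) (by positivity))
  have h3 : (C * (A * ρ ^ p) + C) ^ a0 ≤ (C * A + C) ^ a0 * ρ ^ (p * a0) := by
    rw [Real.rpow_mul hρ0, ← Real.mul_rpow (by positivity) (by positivity)]
    apply Real.rpow_le_rpow (by positivity) _ (by linarith)
    nlinarith
  have h5 : ρ ^ p ≤ ρ ^ (p * a0) := Real.rpow_le_rpow_of_exponent_le hρ (by nlinarith)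
  have h4 : C * (C * (A * ρ ^ p) + C) ^ a0 + C * (A * ρ ^ p) + C <
      (C * (C * A + C) ^ a0 + C * A + C + 1) * ρ ^ (p * a0) := by
    have h6 : 1 ≤ ρ ^ (p * a0) := hρp.trans h5
    have h7 : C * A * ρ ^ p ≤ C * A * ρ ^ (p * a0) := by gcongr
    have h8 : C * (C * (A * ρ ^ p) + C) ^ a0 ≤ C * ((C * A + C) ^ a0 * ρ ^ (p * a0)) := by
      gcongr
    nlinarith
  have h5 : (⨅ (b : Chain n (j + 1 + 1)) (_ : bdry b = a), G.mass B b) <
      ENNReal.ofReal ((C * (C * A + C) ^ a0 + C * A + C + 1) * ρ ^ (p * a0)) := by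
    refine lt_of_le_of_lt h2 ?_
    rw [ENNReal.ofReal_lt_ofReal_iff (by positivity)]
    exact h4
  simp only [iInf_lt_iff] at h5
  obtain ⟨b, hb, hb2⟩ := h5
  exact ⟨b, hb, hb2.le⟩

/-- Chains filling near tuples, with volume bounds of the right order. -/
theorem exists_Phi {α : ℕ → ℝ} (hα : ∀ i, 1 ≤ α i)
    (hFV : ∀ j, j + 2 ≤ n → FVle G B (j + 1) (α (j + 1))) (K : ℝ) (hK : 0 ≤ K)
    (k : ℕ) (hk : k ≤ n) : ∃ A : ℝ, 0 < A ∧ ∀ ρ : ℝ, 1 ≤ ρ →
      ∃ Φ : ∀ j, (Fin (j + 1) → Fin n → ℝ) → Chain n j,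
        (∀ g, Φ 0 g = Finsupp.single (ptSimplex (g 0)) 1) ∧
        (∀ j < k, ∀ g, G.near (K * ρ) g → bdry (Φ (j + 1) g) = altSum (Φ j) g) ∧
        (∀ j ≤ k, ∀ g, G.near (K * ρ) g →
          G.mass B (Φ j g) ≤ ENNReal.ofReal (A * ρ ^ pw α j)) := by
  classical
  induction k with
  | zero =>
    obtain ⟨A, hA, hA'⟩ := G.exists_phi_mass_zero B
    refine ⟨A, hA, fun ρ hρ => ⟨fun j g => Finsupp.single (ptSimplex (g 0)) 1, fun g => rfl,
      fun j hj => absurd hj (by omega), fun j hj g _ => ?_⟩⟩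
    obtain rfl : j = 0 := by omega
    refine (hA' (g 0)).trans (ENNReal.ofReal_le_ofReal ?_)
    have : 1 ≤ ρ ^ pw α 0 := Real.one_le_rpow hρ (by linarith [one_le_pw hα 0])
    nlinarith
  | succ k ih =>
    obtain ⟨A, hA, hΦ⟩ := ih (by omega)
    have hstep : ∃ A' : ℝ, 0 < A' ∧ ∀ ρ : ℝ, 1 ≤ ρ →
        ∀ Φ : ∀ j, (Fin (j + 1) → Fin n → ℝ) → Chain n j,
        (∀ g, Φ 0 g = Finsupp.single (ptSimplex (g 0)) 1) →
        (∀ j < k, ∀ g, G.near (K * ρ) g → bdry (Φ (j + 1) g) = altSum (Φ j) g) →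
        (∀ j ≤ k, ∀ g, G.near (K * ρ) g →
          G.mass B (Φ j g) ≤ ENNReal.ofReal (A * ρ ^ pw α j)) →
        ∀ g : Fin (k + 2) → Fin n → ℝ, G.near (K * ρ) g → ∃ b : Chain n (k + 1),
          bdry b = altSum (Φ k) g ∧ G.mass B b ≤ ENNReal.ofReal (A' * ρ ^ pw α (k + 1)) := by
      rcases k with _ | k
      · obtain ⟨A', hA', h⟩ := G.exists_edge B K hK
        refine ⟨A', hA', fun ρ hρ Φ h0 _ _ g hg => ?_⟩
        obtain ⟨b, hb1, hb2⟩ := h ρ hρ (g 0) (g 1) (hg 0 1)
        have hpw : ρ ^ pw α (0 + 1) = ρ := by rw [zero_add, pw_one, Real.rpow_one]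
        refine ⟨b, ?_, by rw [hpw]; exact hb2⟩
        rw [hb1, altSum_pair, h0, h0]
      · obtain ⟨A', hA', h⟩ := exists_filling G B (hα (k + 1)) (hFV k (by omega))
          ((k + 1 + 1 + 1) * A) (by positivity) (pw α (k + 1)) (by linarith [one_le_pw hα (k + 1)])
        refine ⟨A', hA', fun ρ hρ Φ h0 h1 h2 g hg => ?_⟩
        rw [pw_succ]
        apply h ρ hρ
        · rw [bdry_altSum, ← altSum_altSum (Φ k) g]
          apply altSum_congr
          intro i
          exact h1 k (by omega) _ (G.near_face hg i)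
        · have := G.mass_altSum_le B (Φ (k + 1)) g (A * ρ ^ pw α (k + 1))
            (fun i => h2 (k + 1) le_rfl _ (G.near_face hg i))
          refine this.trans (le_of_eq ?_)
          push_cast
          congr 1
          ring
    obtain ⟨A', hA', hstep⟩ := hstep
    refine ⟨max A A', lt_max_of_lt_left hA, fun ρ hρ => ?_⟩
    have hρ0 : 0 ≤ ρ := by linarith
    obtain ⟨Φ, h0, h1, h2⟩ := hΦ ρ hρ
    have hst := hstep ρ hρ Φ h0 h1 h2
    set new : (Fin (k + 1 + 1) → Fin n → ℝ) → Chain n (k + 1) := fun g =>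
      if h : G.near (K * ρ) g then (hst g h).choose else 0 with hnew
    have hn1 : ∀ g, G.near (K * ρ) g → bdry (new g) = altSum (Φ k) g := by
      intro g hg
      simp only [hnew, dif_pos hg]
      exact (hst g hg).choose_spec.1
    have hn2 : ∀ g, G.near (K * ρ) g →
        G.mass B (new g) ≤ ENNReal.ofReal (A' * ρ ^ pw α (k + 1)) := by
      intro g hg
      simp only [hnew, dif_pos hg]
      exact (hst g hg).choose_spec.2
    refine ⟨Function.update Φ (k + 1) new, fun g => ?_, fun j hj g hg => ?_, fun j hj g hg => ?_⟩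
    · rw [Function.update_of_ne (by omega)]
      exact h0 g
    · rcases Nat.lt_or_ge j k with hjk | hjk
      · rw [Function.update_of_ne (by omega), Function.update_of_ne (by omega)]
        exact h1 j hjk g hg
      · obtain rfl : j = k := by omega
        rw [Function.update_self, Function.update_of_ne (by omega)]
        exact hn1 g hg
    · rcases Nat.lt_or_ge j (k + 1) with hjk | hjk
      · rw [Function.update_of_ne (by omega)]
        refine (h2 j (by omega) g hg).trans (ENNReal.ofReal_le_ofReal ?_)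
        gcongr
        exact le_max_left _ _
      · obtain rfl : j = k + 1 := by omega
        rw [Function.update_self]
        refine (hn2 g hg).trans (ENNReal.ofReal_le_ofReal ?_)
        gcongr
        exact le_max_right _ _

theorem exists_H {α : ℕ → ℝ} (hα : ∀ i, 1 ≤ α i)
    (hFV : ∀ j, j + 2 ≤ n → FVle G B (j + 1) (α (j + 1))) {L A : ℝ} (hA : 0 ≤ A)
    (Φ : ∀ j, (Fin (j + 1) → Fin n → ℝ) → Chain n j)
    (h0 : ∀ g, Φ 0 g = Finsupp.single (ptSimplex (g 0)) 1)
    (h1 : ∀ j < n, ∀ g, G.near L g → bdry (Φ (j + 1) g) = altSum (Φ j) g)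
    (h2 : ∀ j ≤ n, ∀ g, G.near L g → G.mass B (Φ j g) ≤ ENNReal.ofReal A)
    (h3 : ∀ j ≤ n, ∀ g : Fin (j + 1) → Fin n → ℝ, G.near L g →
      G.mass B (G.sC g) ≤ ENNReal.ofReal A)
    (k : ℕ) (hk : k + 1 ≤ n) : ∃ C : ℝ, 0 < C ∧
      ∃ H : ∀ j, (Fin (j + 1) → Fin n → ℝ) → Chain n (j + 1), (∀ g, H 0 g = 0) ∧
        (∀ j < k, ∀ g, G.near L g →
          bdry (H (j + 1) g) = Φ (j + 1) g - G.sC g - altSum (H j) g) ∧
        (∀ j ≤ k, ∀ g, G.near L g → G.mass B (H j g) ≤ ENNReal.ofReal C) := by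
  classical
  induction k with
  | zero =>
    refine ⟨1, one_pos, fun j g => 0, fun g => rfl, fun j hj => absurd hj (by omega),
      fun j hj g _ => ?_⟩
    rw [mass_zero]
    exact bot_le
  | succ k ih =>
    obtain ⟨C, hC, H, hH0, hH1, hH2⟩ := ih (by omega)
    obtain ⟨A', hA', hfill⟩ := exists_filling G B (hα (k + 1)) (hFV k (by omega))
      (A + A + (k + 1 + 1) * C) (by positivity) 1 zero_le_one
    have hst : ∀ g : Fin (k + 1 + 1) → Fin n → ℝ, G.near L g → ∃ b : Chain n (k + 2),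
        bdry b = Φ (k + 1) g - G.sC g - altSum (H k) g ∧ G.mass B b ≤ ENNReal.ofReal A' := by
      intro g hg
      obtain ⟨b, hb1, hb2⟩ := hfill 1 le_rfl (Φ (k + 1) g - G.sC g - altSum (H k) g)
        (G.cycle_H Φ H k h0 (h1 k (by omega)) hH0 hH1 g hg) (by
          rw [Real.one_rpow, mul_one, ENNReal.ofReal_add (by positivity) (by positivity),
            ENNReal.ofReal_add hA hA]
          refine (G.mass_sub_le B _ _).trans (add_le_add ((G.mass_sub_le B _ _).trans
            (add_le_add (h2 _ (by omega) g hg) (h3 _ (by omega) g hg))) ?_)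
          have := G.mass_altSum_le B (H k) g C (fun i => hH2 k le_rfl _ (G.near_face hg i))
          refine this.trans (le_of_eq ?_)
          push_cast
          rfl)
      exact ⟨b, hb1, by simpa using hb2⟩
    set new : (Fin (k + 1 + 1) → Fin n → ℝ) → Chain n (k + 1 + 1) := fun g =>
      if h : G.near L g then (hst g h).choose else 0 with hnew
    have hn1 : ∀ g, G.near L g → bdry (new g) = Φ (k + 1) g - G.sC g - altSum (H k) g := by
      intro g hg
      simp only [hnew, dif_pos hg]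
      exact (hst g hg).choose_spec.1
    have hn2 : ∀ g, G.near L g → G.mass B (new g) ≤ ENNReal.ofReal A' := by
      intro g hg
      simp only [hnew, dif_pos hg]
      exact (hst g hg).choose_spec.2
    refine ⟨max C A', lt_max_of_lt_left hC, Function.update H (k + 1) new, fun g => ?_,
      fun j hj g hg => ?_, fun j hj g hg => ?_⟩
    · rw [Function.update_of_ne (by omega)]
      exact hH0 g
    · rcases Nat.lt_or_ge j k with hjk | hjk
      · rw [Function.update_of_ne (by omega), Function.update_of_ne (by omega)]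
        exact hH1 j hjk g hg
      · obtain rfl : j = k := by omega
        rw [Function.update_self, Function.update_of_ne (by omega)]
        exact hn1 g hg
    · rcases Nat.lt_or_ge j (k + 1) with hjk | hjk
      · rw [Function.update_of_ne (by omega)]
        exact (hH2 j (by omega) g hg).trans (ENNReal.ofReal_le_ofReal (le_max_left _ _))
      · obtain rfl : j = k + 1 := by omega
        rw [Function.update_self]
        exact (hn2 g hg).trans (ENNReal.ofReal_le_ofReal (le_max_right _ _))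

/-- The cochains produced by the filling functions: a cochain `F` with the right volume
bound which differs from the signed volume of straight simplices by the coboundary of `h`. -/
theorem exists_cochains {m : ℕ} (G : NilLaw (m + 1))
    (B : Matrix (Fin (m + 1)) (Fin (m + 1)) ℝ) (hB : B.PosDef) {α : ℕ → ℝ} (hα : ∀ i, 1 ≤ α i)
    (hFV : ∀ j, j + 2 ≤ m + 1 → FVle G B (j + 1) (α (j + 1))) (K : ℝ) (hK : 0 ≤ K) :
    ∃ A : ℝ, 0 < A ∧ ∀ ρ : ℝ, 1 ≤ ρ → ∃ C : ℝ, 0 < C ∧
      ∃ (F : (Fin (m + 2) → Fin (m + 1) → ℝ) → ℝ) (h : (Fin (m + 1) → Fin (m + 1) → ℝ) → ℝ),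
        (∀ g, G.near (K * ρ) g → |F g| ≤ A * ρ ^ pw α (m + 1)) ∧
        (∀ g, G.near (K * ρ) g → |h g| ≤ C) ∧
        ∀ g, G.near (K * ρ) g →
          F g - sgnVol (G.barSimplex g) =
            ∑ i : Fin (m + 2), (-1 : ℝ) ^ (i : ℕ) * h (fun j => g (i.succAbove j)) := by
  obtain ⟨A, hA, hΦ⟩ := exists_Phi G B hα hFV K hK (m + 1) le_rfl
  set b : ℝ := (√ B.det)⁻¹ with hb
  have hb0 : 0 < b := inv_pos.2 (Real.sqrt_pos.2 hB.det_pos)
  have hbd : ∀ (c : Chain (m + 1) (m + 1)) (M : ℝ), 0 ≤ M →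
      G.mass B c ≤ ENNReal.ofReal M → |sgnVolChain c| ≤ b * M := by
    intro c M hM hc
    have h1 := G.ofReal_abs_sgnVolChain_le B hB c
    have h2 := h1.trans (mul_le_mul_right hc _)
    rw [← ENNReal.ofReal_mul hb0.le] at h2
    exact (ENNReal.ofReal_le_ofReal_iff (by positivity)).1 h2
  refine ⟨b * A, by positivity, fun ρ hρ => ?_⟩
  have hρ0 : 0 ≤ ρ := by linarith
  obtain ⟨Φ, h0, h1, h2⟩ := hΦ ρ hρ
  -- mass bounds of straight simplices
  have hS : ∃ A1 : ℝ, 0 < A1 ∧ ∀ j ≤ m + 1, ∀ g : Fin (j + 1) → Fin (m + 1) → ℝ,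
      G.near (K * ρ) g → G.mass B (G.sC g) ≤ ENNReal.ofReal A1 := by
    choose C hC0 hC using fun j => G.mass_sC_near B (K * ρ) j
    refine ⟨∑ j ∈ Finset.range (m + 2), C j, ?_, fun j hj g hg => ?_⟩
    · apply Finset.sum_pos (fun j _ => hC0 j)
      simp
    · refine (hC j g hg).trans (ENNReal.ofReal_le_ofReal ?_)
      exact Finset.single_le_sum (f := C) (fun i _ => (hC0 i).le)
        (Finset.mem_range.2 (by omega))
  obtain ⟨A1, hA1, hS⟩ := hS
  obtain ⟨C, hC, H, hH0, hH1, hH2⟩ := exists_H G B hα hFV (L := K * ρ)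
    (A := max (A * ρ ^ pw α (m + 1)) A1)
    (by positivity) Φ h0 h1
    (fun j hj g hg => (h2 j hj g hg).trans (ENNReal.ofReal_le_ofReal (le_max_of_le_left (by
      have : ρ ^ pw α j ≤ ρ ^ pw α (m + 1) :=
        Real.rpow_le_rpow_of_exponent_le hρ (pw_mono hα hj)
      gcongr))))
    (fun j hj g hg => (hS j hj g hg).trans (ENNReal.ofReal_le_ofReal (le_max_right _ _)))
    m le_rfl
  refine ⟨b * C, by positivity, fun g => sgnVolChain (Φ (m + 1) g),
    fun g => sgnVolChain (H m g), fun g hg => ?_, fun g hg => ?_, fun g hg => ?_⟩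
  · have := hbd _ _ (by positivity) (h2 (m + 1) le_rfl g hg)
    linarith
  · exact hbd _ _ hC.le (hH2 m le_rfl g hg)
  · have hcyc := G.cycle_H Φ H m h0 (h1 m (by omega)) hH0 hH1 g hg
    have hz := sgnVolChain_eq_zero (m := m)
      (fun f g hf hg S hS hfg => integral_det_fderiv_sub (by omega) hf hg hS hfg) _ hcyc
    rw [sgnVolChain_sub, sgnVolChain_sub, sC, sgnVolChain_single, altSum, sgnVolChain_sum] at hz
    simp only [sgnVolChain_smul] at hz
    push_cast at hz
    linarith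

end Pool.Agent.U86.Fil
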