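import Pool.Agent.U86.Fil.Main

/-! Copy of `Pool.Agent.TH630.Fill.Final` (starting library) with the gauge of a distorted central
direction replaced by an abstract gauge. -/

open MeasureTheory MvPolynomial
open scoped ENNReal NNReal Topology

namespace Pool.Agent.U86.Fil

open Pool.Agent.TH630

variable {n m k : ℕ}

theorem exists_Bd {G : NilLaw (m + 1)} (D : Gg G)
    (Q : MvPolynomial (Fin (m + 1 + 1) × Fin (m + 1)) ℝ) {ρ K : ℝ} (hρ : 0 < ρ)
    (hK : ∀ x : Fin (m + 1) → ℝ, D.Nr ρ x ≤ 4 * ρ → G.nrm x < K * ρ) :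
    ∃ Bd : ℝ, 0 ≤ Bd ∧
      (∀ k ∈ Q.support, ∀ i j, |dfv (0 : Fin (m + 1) → ℝ) (Pi.single j 1)
        (mono k (Fin.succ i))| ≤ Bd) ∧
      (∀ k ∈ Q.support, ∀ i, ∀ y : Fin (m + 1) → ℝ, D.Nr ρ y ≤ 2 * ρ →
        |eval y (mono k (Fin.succ i))| ≤ Bd) := by
  have h1 : ∀ (k : Fin (m + 1 + 1) × Fin (m + 1) →₀ ℕ) (i : Fin (m + 1)), ∃ b : ℝ, 0 ≤ b ∧
      ∀ y : Fin (m + 1) → ℝ, D.Nr ρ y ≤ 2 * ρ → |eval y (mono k (Fin.succ i))| ≤ b := by
    intro k i
    obtain ⟨b, hb⟩ := (isCompact_nball (G := G) (K * ρ)).exists_bound_of_continuousOn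
      (f := fun y => eval y (mono k (Fin.succ i))) (differentiable_eval _).continuous.continuousOn
    refine ⟨|b|, abs_nonneg b, fun y hy => ?_⟩
    have h2 : G.nrm y ≤ K * ρ := (hK y (by linarith)).le
    exact (hb y h2).trans (le_abs_self b)
  choose b hb0 hb using h1
  set B1 : ℝ := ∑ k ∈ Q.support, ∑ i, b k i with hB1
  set B2 : ℝ := ∑ k ∈ Q.support, ∑ i : Fin (m + 1), ∑ j : Fin (m + 1),
    |dfv (0 : Fin (m + 1) → ℝ) (Pi.single j 1) (mono k (Fin.succ i))| with hB2
  have hB10 : 0 ≤ B1 := Finset.sum_nonneg fun k _ => Finset.sum_nonneg fun i _ => hb0 k i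
  have hB20 : 0 ≤ B2 := Finset.sum_nonneg fun k _ => Finset.sum_nonneg fun i _ =>
    Finset.sum_nonneg fun j _ => abs_nonneg _
  refine ⟨B1 + B2, by positivity, fun k hk i j => ?_, fun k hk i y hy => ?_⟩
  · have e1 : |dfv (0 : Fin (m + 1) → ℝ) (Pi.single j 1) (mono k (Fin.succ i))| ≤
        ∑ j : Fin (m + 1), |dfv (0 : Fin (m + 1) → ℝ) (Pi.single j 1) (mono k (Fin.succ i))| :=
      Finset.single_le_sum (f := fun j : Fin (m + 1) =>
        |dfv (0 : Fin (m + 1) → ℝ) (Pi.single j 1) (mono k (Fin.succ i))|)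
        (fun _ _ => abs_nonneg _) (Finset.mem_univ j)
    have e2 := Finset.single_le_sum (f := fun i : Fin (m + 1) => ∑ j : Fin (m + 1),
        |dfv (0 : Fin (m + 1) → ℝ) (Pi.single j 1) (mono k (Fin.succ i))|)
        (fun _ _ => Finset.sum_nonneg fun _ _ => abs_nonneg _) (Finset.mem_univ i)
    have e3 := Finset.single_le_sum (f := fun k => ∑ i : Fin (m + 1), ∑ j : Fin (m + 1),
        |dfv (0 : Fin (m + 1) → ℝ) (Pi.single j 1) (mono k (Fin.succ i))|)
        (fun _ _ => Finset.sum_nonneg fun _ _ => Finset.sum_nonneg fun _ _ => abs_nonneg _) hk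
    linarith
  · have e1 := hb k i y hy
    have e2 := Finset.single_le_sum (f := fun i : Fin (m + 1) => b k i)
        (fun _ _ => hb0 _ _) (Finset.mem_univ i)
    have e3 := Finset.single_le_sum (f := fun k => ∑ i : Fin (m + 1), b k i)
        (fun _ _ => Finset.sum_nonneg fun _ _ => hb0 _ _) hk
    linarith

theorem main_ineq {G : NilLaw (m + 1)} (D : Gg G)
    {Q : MvPolynomial (Fin (m + 1 + 1) × Fin (m + 1)) ℝ} (hQ : IsVolPoly G Q)
    {ρ N K A C C2 p : ℝ} (hρ1 : 1 ≤ ρ) (hN : 0 ≤ N)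
    (hK : ∀ x : Fin (m + 1) → ℝ, D.Nr ρ x ≤ 4 * ρ → G.nrm x < K * ρ) (hC2 : FrameBound G C2)
    (F : (Fin (m + 2) → Fin (m + 1) → ℝ) → ℝ) (h : (Fin (m + 1) → Fin (m + 1) → ℝ) → ℝ)
    (hA : 0 ≤ A) (hC : 0 ≤ C)
    (hF : ∀ g, G.near (K * ρ) g → |F g| ≤ A * ρ ^ p)
    (hh : ∀ g, G.near (K * ρ) g → |h g| ≤ C)
    (hFh : ∀ g, G.near (K * ρ) g → F g - sgnVol (G.barSimplex g) =
      ∑ i : Fin (m + 2), (-1 : ℝ) ^ (i : ℕ) * h (fun j => g (i.succAbove j)))
    {c0 : ℝ}
    (hc0 : c0 = (m + 1).factorial * (volume (corner (m + 1))).toReal)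
    (hsmall : N ^ (m + 2) * (C3 m D.Cj N / ρ ^ (∑ j, D.w j) * (A * ρ ^ p)) ≤ c0 / 2) :
    ∃ Cc : ℝ, 0 < Cc ∧ ∀ (R : ℝ) (ι : Type) (_ : Fintype ι) (_ : Pou D ρ R N ι),
      (Cc + c0 / 2) * G.vg R ≤ Cc * G.vg (R + 2) := by
  have hρ : 0 < ρ := by linarith
  have hQc := hQ.cocycle
  have hc0' : 0 ≤ c0 := by rw [hc0]; positivity
  obtain ⟨Bd, hBd, hB1, hB2⟩ := exists_Bd D Q hρ hK
  have hC20 := hC2.1
  set M1 : ℝ := (∑ k ∈ Q.support, |Q.coeff k| * |eval (0 : Fin (m + 1) → ℝ) (mono k 0)|) *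
        ((m + 1).factorial * (Bd + C2 * (N * Bd + Bd) + N * (C2 * ((1 + 2 * N) / ρ) * Bd)) ^
          (m + 1)) with hM1
  set M2 : ℝ := N ^ (m + 1) * (C * ((m + 1).factorial *
    (C2 * ((1 + 2 * N) / ρ) + C2) ^ (m + 1))) with hM2
  have hM10 : 0 ≤ M1 := by positivity
  have hM20 : 0 ≤ M2 := by positivity
  refine ⟨M1 + c0 + M2 + 1, by positivity, fun R ι _ P => ?_⟩
  set Cc := M1 + c0 + M2 + 1 with hCc
  have hCc0 : 0 < Cc := by positivity
  set S : Set (Fin (m + 1) → ℝ) := {x | G.nrm x ≤ R + 1} with hS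
  have hScomp : IsCompact S := isCompact_nball (R + 1)
  have hI1 := fun k : Fin (m + 1 + 1) × Fin (m + 1) →₀ ℕ => integral_det_fderiv_sub
    (Nat.succ_pos m) (LL_ff P hρ hN k) (LL_gg k) hScomp (ff_eq_gg P k)
  have hI2 := fun f : Fin (m + 1) → ι => integral_det_fderiv_sub
    (Nat.succ_pos m) (LL_uf P hρ hN f) (LL_vf P hρ hN f) hScomp (uf_eq_vf P f)
  set Ψ1 : (Fin (m + 1) → ℝ) → ℝ := fun x => ∑ k ∈ Q.support, Q.coeff k *
    (eval (0 : Fin (m + 1) → ℝ) (mono k 0) *
      ((fderiv ℝ (ff P k) x).det - (fderiv ℝ (gg k) x).det)) with hΨ1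
  set Ψ2 : (Fin (m + 1) → ℝ) → ℝ := fun x => ∑ f : Fin (m + 1) → ι,
    h (fun i => P.pt (f i)) * ((fderiv ℝ (uf P f) x).det - (fderiv ℝ (vf P f) x).det) with hΨ2
  have hint1 : Integrable Ψ1 := integrable_finsetSum _ fun k _ =>
    (((hI1 k).1.const_mul _).const_mul _)
  have hint2 : Integrable Ψ2 := integrable_finsetSum _ fun f _ => ((hI2 f).1.const_mul _)
  have hz1 : ∫ x, Ψ1 x = 0 := by
    rw [hΨ1, integral_finsetSum _ fun k _ => (((hI1 k).1.const_mul _).const_mul _)]
    apply Finset.sum_eq_zero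
    intro k _
    rw [integral_const_mul, integral_const_mul, (hI1 k).2]
    ring
  have hz2 : ∫ x, Ψ2 x = 0 := by
    rw [hΨ2, integral_finsetSum _ fun f _ => ((hI2 f).1.const_mul _)]
    apply Finset.sum_eq_zero
    intro f _
    rw [integral_const_mul, (hI2 f).2]
    ring
  have hz : ∫ x, (Ψ1 x + Ψ2 x) = 0 := by rw [integral_add hint1 hint2, hz1, hz2, add_zero]
  set B0 : Set (Fin (m + 1) → ℝ) := {x | G.nrm x < R} with hB0
  set B2' : Set (Fin (m + 1) → ℝ) := {x | G.nrm x < R + 2} with hB2'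
  have hB0m : MeasurableSet B0 := (G.isOpen_nball R).measurableSet
  have hB2m : MeasurableSet B2' := (G.isOpen_nball (R + 2)).measurableSet
  set bd : (Fin (m + 1) → ℝ) → ℝ := fun x =>
    B2'.indicator (fun _ => Cc) x - B0.indicator (fun _ => Cc + c0 / 2) x with hbd
  have hbdi1 : Integrable (B2'.indicator fun _ => Cc) (volume : Measure (Fin (m + 1) → ℝ)) :=
    (integrable_indicator_iff hB2m).2 (integrableOn_const (G.volume_nball_lt_top _).ne)
  have hbdi2 : Integrable (B0.indicator fun _ => Cc + c0 / 2)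
      (volume : Measure (Fin (m + 1) → ℝ)) :=
    (integrable_indicator_iff hB0m).2 (integrableOn_const (G.volume_nball_lt_top _).ne)
  have hbdint : ∫ x, bd x = Cc * G.vg (R + 2) - (Cc + c0 / 2) * G.vg R := by
    rw [hbd, integral_sub hbdi1 hbdi2, integral_indicator hB2m, integral_indicator hB0m,
      setIntegral_const, setIntegral_const, smul_eq_mul, smul_eq_mul]
    rw [NilLaw.vg, NilLaw.vg, Measure.real, Measure.real]
    ring
  have hle : ∀ᵐ x ∂(volume : Measure (Fin (m + 1) → ℝ)), Ψ1 x + Ψ2 x ≤ bd x := by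
    filter_upwards [ae_good P hρ hN] with x hx
    have e1 : Ψ1 x = kap Q (ev 0) (fun j => Lf P x (Pi.single j 1)) - c0 := by
      rw [hΨ1]
      simp only
      rw [sum_det_ff P Q hx, kap_dfv hQ hQc, hc0]
    have e2 : Ψ2 x = ∑ f : Fin (m + 1) → ι, h (fun i => P.pt (f i)) *
        (fderiv ℝ (uf P f) x).det := by
      rw [hΨ2]
      refine Finset.sum_congr rfl fun f _ => ?_
      rw [det_vf P hx, sub_zero]
    rcases lt_or_ge (G.nrm x) R with hR | hR
    · -- inner region
      have hR2 : G.nrm x < R + 2 := by linarith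
      have hx0 : x ∈ B0 := hR
      have hx2 : x ∈ B2' := hR2
      have e3 : bd x = -(c0 / 2) := by
        rw [hbd]
        simp only [Set.indicator_of_mem hx0, Set.indicator_of_mem hx2]
        ring
      have e4 : Ψ2 x = ∑ f : Fin (m + 1) → ι, h (fun i => P.pt (f i)) * dt P x f := by
        rw [e2]
        refine Finset.sum_congr rfl fun f _ => ?_
        rw [det_uf_inner P hx f hR]
      have e5 := sum_coboundary P hx hR2 (fun f => h (fun i => P.pt (f i)))
      have e6 : Ψ1 x + Ψ2 x = (∑ f : Fin (m + 2) → ι, wt P x f * F (fun i => P.pt (f i))) - c0 := by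
        rw [e1, kap_inner P hQc hx hR, e4, ← e5]
        have e7 : ∑ f : Fin (m + 2) → ι, wt P x f * eval (fun p => P.pt (f p.1) p.2) Q +
            ∑ f : Fin (m + 2) → ι, wt P x f * (∑ i : Fin (m + 2), (-1 : ℝ) ^ (i : ℕ) *
              h (fun j => P.pt (f (i.succAbove j)))) =
            ∑ f : Fin (m + 2) → ι, wt P x f * F (fun i => P.pt (f i)) := by
          rw [← Finset.sum_add_distrib]
          refine Finset.sum_congr rfl fun f _ => ?_
          by_cases hw : wt P x f = 0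
          · rw [hw]
            ring
          · have h1 := near_of_active P hρ hK f x (wt_ne_zero P hw)
            have h2 := hFh _ h1
            have h3 := hQ (fun i => P.pt (f i))
            rw [← h2, h3]
            ring
        rw [← e7]
        ring
      have e8 := kapF_le P hρ1 hN hK F hA hF hx
      have e9 := le_abs_self (∑ f : Fin (m + 2) → ι, wt P x f * F (fun i => P.pt (f i)))
      rw [e6, e3]
      linarith
    · have hx0 : x ∉ B0 := not_lt.2 hR
      rcases lt_or_ge (G.nrm x) (R + 2) with hR2 | hR2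
      · have hx2 : x ∈ B2' := hR2
        have e3 : bd x = Cc := by
          rw [hbd]
          simp only [Set.indicator_of_notMem hx0, Set.indicator_of_mem hx2]
          ring
        have e4 : |kap Q (ev 0) (fun j => Lf P x (Pi.single j 1))| ≤ M1 := by
          rw [kap_Lf P hQ hQc hx hR2]
          exact kap_bound P Q hρ hN hC2 Bd hBd hB1 hB2 hx
        have e5 : |Ψ2 x| ≤ M2 := by
          rw [e2]
          refine abs_sum_le P (x := x) _ (by positivity)
            (fun f hf => det_uf_ne_zero P hx (right_ne_zero_of_mul hf)) (fun f hf => ?_)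
          rw [abs_mul]
          have h1 := hh _ (near_of_active P hρ hK f x
            (det_uf_ne_zero P hx (right_ne_zero_of_mul hf)))
          have h2 := abs_det_uf_le P hC2 hρ hN hx f
          gcongr
        rw [e3, e1]
        have e6 := le_abs_self (kap Q (ev 0) (fun j => Lf P x (Pi.single j 1)))
        have e7 := le_abs_self (Ψ2 x)
        linarith
      · have hx2 : x ∉ B2' := not_lt.2 hR2
        have e3 : bd x = 0 := by
          rw [hbd]
          simp only [Set.indicator_of_notMem hx0, Set.indicator_of_notMem hx2]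
          ring
        have hR1 : R + 1 < G.nrm x := by linarith
        have e4 : Ψ2 x = 0 := by
          rw [e2]
          apply Finset.sum_eq_zero
          intro f _
          rw [det_uf_outer P hx f hR1, mul_zero]
        have e5 : Ψ1 x = 0 := by
          rw [e1, hc0, ← kap_dfv hQ hQc x]
          have h1 : ∀ v, Lf P x v = dfv x v := by
            intro v
            rw [Lf, fderiv_cut_outer hR1, G.cut_eq_zero hR1.le]
            simp
          simp only [h1]
          ring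
        rw [e3, e4, e5, add_zero]
  have hfin := integral_mono_ae (hint1.add hint2) (hbdi1.sub hbdi2) hle
  have h1 : ∫ x, (Ψ1 + Ψ2) x = 0 := hz
  have h2 : ∫ x, ((B2'.indicator fun _ => Cc) - B0.indicator fun _ => Cc + c0 / 2) x =
      Cc * G.vg (R + 2) - (Cc + c0 / 2) * G.vg R := hbdint
  rw [h1, h2] at hfin
  linarith

end Pool.Agent.U86.Fil
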