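import Pool.Agent.U86.Fil.Prod

/-! # The gap: a filling function which is super-Euclidean by a power -/

open scoped ENNReal NNReal Topology

namespace Pool.Agent.U86.Fil

open Pool.Agent.TH630

variable {n : ℕ}

theorem FVle.mono {G : NilLaw n} {B : Matrix (Fin n) (Fin n) ℝ} {k : ℕ} {α β : ℝ} (hα : 0 ≤ α)
    (h : α ≤ β) (hF : FVle G B k α) : FVle G B k β := by
  obtain ⟨C, hC, hr⟩ := hF
  refine ⟨max C 1, by positivity, fun r hr0 => (hr r hr0).trans (ENNReal.ofReal_le_ofReal ?_)⟩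
  have h1 : C ≤ max C 1 := le_max_left _ _
  have h2 : (1 : ℝ) ≤ max C 1 := le_max_right _ _
  have h3 : (C * r + C) ^ α ≤ (max C 1 * r + max C 1) ^ β := by
    calc (C * r + C) ^ α ≤ (max C 1 * r + max C 1) ^ α := by
          apply Real.rpow_le_rpow (by positivity) _ hα
          gcongr
      _ ≤ _ := Real.rpow_le_rpow_of_exponent_le (by nlinarith) h
  gcongr

theorem pow_gap {n : ℕ} (hn : 1 ≤ n) :
    (n : ℝ) * (1 + 1 / (n : ℝ) ^ 2) ^ (n - 1) < n + 1 := by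
  have hn0 : (0 : ℝ) < n := by exact_mod_cast hn
  set x : ℝ := 1 / ((n : ℝ) ^ 2 + 1) with hx
  have hx0 : 0 < x := by positivity
  have hx1 : x ≤ 1 := by
    rw [hx, div_le_one (by positivity)]
    nlinarith [sq_nonneg (n : ℝ)]
  have h1 : (1 + 1 / (n : ℝ) ^ 2) * (1 - x) = 1 := by
    rw [hx]
    field_simp
    ring
  have h2 : 1 - (n - 1 : ℕ) * x ≤ (1 - x) ^ (n - 1) := by
    have := one_add_mul_le_pow (a := -x) (by linarith) (n - 1)
    have e : (1 + -x) = 1 - x := by ring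
    rw [e] at this
    linarith
  have h3 : ((n - 1 : ℕ) : ℝ) = n - 1 := by
    rw [Nat.cast_sub hn]
    simp
  rw [h3] at h2
  have h4 : (n : ℝ) / (n + 1) < 1 - (n - 1) * x := by
    rw [hx, div_lt_iff₀ (by positivity)]
    have : (1 - ((n : ℝ) - 1) * (1 / ((n : ℝ) ^ 2 + 1))) * (n + 1) - n =
        2 / ((n : ℝ) ^ 2 + 1) := by
      field_simp
      ring
    have h5 : 0 < 2 / ((n : ℝ) ^ 2 + 1) := by positivity
    linarith
  have h5 : (n : ℝ) / (n + 1) < (1 - x) ^ (n - 1) := lt_of_lt_of_le h4 h2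
  have h6 : (1 + 1 / (n : ℝ) ^ 2) ^ (n - 1) * (1 - x) ^ (n - 1) = 1 := by
    rw [← mul_pow, h1, one_pow]
  have h7 : 0 < (1 + 1 / (n : ℝ) ^ 2) ^ (n - 1) := by positivity
  have h8 : (1 + 1 / (n : ℝ) ^ 2) ^ (n - 1) * ((n : ℝ) / (n + 1)) < 1 := by
    calc _ < (1 + 1 / (n : ℝ) ^ 2) ^ (n - 1) * (1 - x) ^ (n - 1) := by gcongr
      _ = 1 := h6
  have h9 : (1 + 1 / (n : ℝ) ^ 2) ^ (n - 1) * ((n : ℝ) / (n + 1)) * (n + 1) < 1 * (n + 1) := by
    gcongr
  have h10 : (1 + 1 / (n : ℝ) ^ 2) ^ (n - 1) * ((n : ℝ) / (n + 1)) * (n + 1) =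
      (n : ℝ) * (1 + 1 / (n : ℝ) ^ 2) ^ (n - 1) := by
    have h11 : (n : ℝ) / (n + 1) * (n + 1) = n := div_mul_cancel₀ _ (by positivity)
    rw [mul_assoc, h11, mul_comm]
  rw [h10, one_mul] at h9
  exact h9

/-- A non-abelian stratified group has a filling function which is super-Euclidean by a power. -/
theorem exists_gap (G : NilLaw n) (S : Stratification G) (B : Matrix (Fin n) (Fin n) ℝ)
    (hB : B.PosDef) (hG : ∃ x y, G.mul x y ≠ G.mul y x) :
    ∃ k : ℕ, 1 ≤ k ∧ k + 1 ≤ n ∧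
      ¬ FVle G B k ((1 + 1 / (n : ℝ) ^ 2) * (((k : ℝ) + 1) / k)) ∧
      ¬ FVle G B k (((k : ℝ) + 1) / k) := by
  have hn1 : 1 ≤ n := by
    rcases n with _ | n
    · obtain ⟨x, y, hxy⟩ := hG
      exact absurd (Subsingleton.elim _ _) hxy
    · omega
  have hn0 : (0 : ℝ) < n := by exact_mod_cast hn1
  have hQ : (n : ℝ) + 1 ≤ S.homDim := by
    have := S.lt_homDim hG
    exact_mod_cast this
  have h1 : ∃ k : ℕ, 1 ≤ k ∧ k + 1 ≤ n ∧
      ¬ FVle G B k ((1 + 1 / (n : ℝ) ^ 2) * (((k : ℝ) + 1) / k)) := by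
    by_contra hcon
    push Not at hcon
    have h2 := homDim_le_prod G S B hB (fun k => (1 + 1 / (n : ℝ) ^ 2) * (((k : ℝ) + 1) / k))
      (fun k hk _ => by
        have hk0 : (0 : ℝ) < k := by exact_mod_cast hk
        have h3 : 1 ≤ ((k : ℝ) + 1) / k := by
          rw [one_le_div hk0]
          linarith
        have h4 : (1 : ℝ) ≤ 1 + 1 / (n : ℝ) ^ 2 := by
          have : 0 < 1 / (n : ℝ) ^ 2 := by positivity
          linarith
        nlinarith) hcon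
    rw [Finset.prod_mul_distrib, Finset.prod_const, Nat.card_Ico, prod_euclid hn1, mul_comm] at h2
    have h3 := pow_gap hn1
    linarith
  obtain ⟨k, hk1, hk2, hk⟩ := h1
  refine ⟨k, hk1, hk2, hk, fun h => hk (h.mono (by positivity) ?_)⟩
  have hk0 : (0 : ℝ) < k := by exact_mod_cast hk1
  have h3 : 0 ≤ ((k : ℝ) + 1) / k := by positivity
  have h4 : (1 : ℝ) ≤ 1 + 1 / (n : ℝ) ^ 2 := by
    have : 0 < 1 / (n : ℝ) ^ 2 := by positivity
    linarith
  nlinarith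

end Pool.Agent.U86.Fil
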