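import Pool.Agent.TH630.Fill.Final
import Pool.Agent.U86.Fil.Defs

/-! # Abstract families of gauges -/

open MeasureTheory MvPolynomial
open scoped ENNReal NNReal Topology

namespace Pool.Agent.U86.Fil

open Pool.Agent.TH630

variable {n m : ℕ}

/-- A family of gauges `Nr ρ`, comparable with the word norm at scale `ρ`, whose derivative in
the direction of the `j`-th coordinate is at most of order `ρ ^ (1 - w j)`. -/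
structure Gg (G : NilLaw n) where
  Nr : ℝ → (Fin n → ℝ) → ℝ
  w : Fin n → ℕ
  Nr_nonneg : ∀ {ρ : ℝ}, 0 < ρ → ∀ x, 0 ≤ Nr ρ x
  Nr_le_nrm : ∀ {ρ : ℝ}, 0 < ρ → ∀ x, Nr ρ x ≤ G.nrm x
  Nr_mul_le : ∀ {ρ : ℝ}, 0 < ρ → ∀ x y, Nr ρ (G.mul x y) ≤ Nr ρ x + Nr ρ y
  Nr_inv : ∀ {ρ : ℝ}, 0 < ρ → ∀ x, Nr ρ (G.inv x) = Nr ρ x
  Nr_zero : ∀ {ρ : ℝ}, 0 < ρ → Nr ρ 0 = 0
  nrm_le_of_Nr : ∀ c : ℝ, 0 ≤ c → ∃ K : ℝ, 0 < K ∧ ∀ ρ : ℝ, 1 ≤ ρ → ∀ x : Fin n → ℝ,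
    Nr ρ x ≤ c * ρ → G.nrm x < K * ρ
  Cj : ℝ
  Cj_pos : 0 < Cj
  coord : ∀ ρ : ℝ, 1 ≤ ρ → ∀ j : Fin n, ∀ᶠ s : ℝ in 𝓝 0,
    Nr ρ (s • (Pi.single j 1 : Fin n → ℝ)) / ρ ≤ Cj / ρ ^ w j * |s|

/-- Hadamard type bound with column bounds. -/
theorem abs_det_le_of_cols (A : Matrix (Fin n) (Fin n) ℝ) (a : Fin n → ℝ)
    (h : ∀ i j, |A i j| ≤ a j) : |A.det| ≤ n.factorial * ∏ j, a j := by
  rw [Matrix.det_apply]
  refine (Finset.abs_sum_le_sum_abs _ _).trans ?_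
  have h1 : ∀ σ : Equiv.Perm (Fin n), |Equiv.Perm.sign σ • ∏ i, A (σ i) i| ≤ ∏ j, a j := by
    intro σ
    have h2 : |Equiv.Perm.sign σ • ∏ i, A (σ i) i| = ∏ i, |A (σ i) i| := by
      rcases Int.units_eq_one_or (Equiv.Perm.sign σ) with hs | hs
      · rw [hs, one_smul, Finset.abs_prod]
      · rw [hs, Units.neg_smul, one_smul, abs_neg, Finset.abs_prod]
    rw [h2]
    exact Finset.prod_le_prod (fun _ _ => abs_nonneg _) fun i _ => h _ _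
  refine (Finset.sum_le_sum fun σ _ => h1 σ).trans ?_
  rw [Finset.sum_const, Finset.card_univ, Fintype.card_perm, Fintype.card_fin, nsmul_eq_mul]

end Pool.Agent.U86.Fil
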