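import Pool.Agent.U86.Fil.Est

/-! Copy of `Pool.Agent.TH630.Fill.Main` (starting library) with the gauge of a distorted central
direction replaced by an abstract gauge. -/

open MeasureTheory MvPolynomial
open scoped ENNReal NNReal Topology

namespace Pool.Agent.U86.Fil

open Pool.Agent.TH630

variable {n m k : ℕ}

section Main

variable {G : NilLaw (m + 1)} {D : Gg G} {ρ R N : ℝ} {ι : Type} [Fintype ι]
  (P : Pou D ρ R N ι)

/-- The map `(ψ χ_{f 0}, χ_{f 1}, …)`. -/
noncomputable def uf (f : Fin (m + 1) → ι) (y : Fin (m + 1) → ℝ) : Fin (m + 1) → ℝ :=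
  fun i => if i = 0 then G.cut R y * P.χ (f 0) y else P.χ (f i) y

/-- The map `(0, χ_{f 1}, …)`. -/
noncomputable def vf (f : Fin (m + 1) → ι) (y : Fin (m + 1) → ℝ) : Fin (m + 1) → ℝ :=
  fun i => if i = 0 then 0 else P.χ (f i) y

theorem LL_uf (hρ : 0 < ρ) (hN : 0 ≤ N) (f : Fin (m + 1) → ι) : LocallyLipschitz (uf P f) := by
  apply locallyLipschitz_pi
  intro i
  by_cases hi : i = 0
  · simp only [uf, if_pos hi]
    exact LL_mul (locallyLipschitz_cut R) (P.locallyLipschitz_χ hρ hN _)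
  · simp only [uf, if_neg hi]
    exact P.locallyLipschitz_χ hρ hN _

theorem LL_vf (hρ : 0 < ρ) (hN : 0 ≤ N) (f : Fin (m + 1) → ι) : LocallyLipschitz (vf P f) := by
  apply locallyLipschitz_pi
  intro i
  by_cases hi : i = 0
  · simp only [vf, if_pos hi]
    exact LocallyLipschitz.const 0
  · simp only [vf, if_neg hi]
    exact P.locallyLipschitz_χ hρ hN _

theorem uf_eq_vf (f : Fin (m + 1) → ι) (x : Fin (m + 1) → ℝ)
    (hx : x ∉ {x : Fin (m + 1) → ℝ | G.nrm x ≤ R + 1}) : uf P f x = vf P f x := by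
  have hx' : R + 1 < G.nrm x := not_le.1 hx
  funext i
  by_cases hi : i = 0
  · simp [uf, vf, hi, G.cut_eq_zero hx'.le]
  · simp [uf, vf, hi]

theorem det_vf {x : Fin (m + 1) → ℝ} (hx : P.Good x) (f : Fin (m + 1) → ι) :
    (fderiv ℝ (vf P f) x).det = 0 := by
  rw [det_fderiv_pi]
  · apply Matrix.det_eq_zero_of_row_eq_zero 0
    intro j
    simp [vf]
  · intro i
    by_cases hi : i = 0
    · simp [vf, hi]
    · simp only [vf, if_neg hi]
      exact hx.1 _

/-- The rows of the Jacobian of `uf`. -/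
theorem det_uf {x : Fin (m + 1) → ℝ} (hx : P.Good x) (f : Fin (m + 1) → ι) :
    (fderiv ℝ (uf P f) x).det = (Matrix.of fun i j => ((if i = 0 then
      G.cut R x • fderiv ℝ (P.χ (f 0)) x + P.χ (f 0) x • fderiv ℝ (G.cut R) x
      else fderiv ℝ (P.χ (f i)) x : (Fin (m + 1) → ℝ) →L[ℝ] ℝ)) (Pi.single j 1)).det := by
  have h0 : HasFDerivAt (fun y => G.cut R y * P.χ (f 0) y)
      (G.cut R x • fderiv ℝ (P.χ (f 0)) x + P.χ (f 0) x • fderiv ℝ (G.cut R) x) x :=
    hx.2.hasFDerivAt.mul (hx.1 (f 0)).hasFDerivAt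
  rw [det_fderiv_pi]
  · congr 1
    ext i j
    simp only [Matrix.of_apply]
    by_cases hi : i = 0
    · simp only [uf, if_pos hi]
      rw [h0.fderiv]
    · simp only [uf, if_neg hi]
  · intro i
    by_cases hi : i = 0
    · simp only [uf, if_pos hi]
      exact h0.differentiableAt
    · simp only [uf, if_neg hi]
      exact hx.1 _

theorem det_uf_ne_zero {x : Fin (m + 1) → ℝ} (hx : P.Good x) {f : Fin (m + 1) → ι}
    (h : (fderiv ℝ (uf P f) x).det ≠ 0) (i : Fin (m + 1)) : P.χ (f i) x ≠ 0 := by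
  intro h0
  apply h
  rw [det_uf P hx]
  apply Matrix.det_eq_zero_of_row_eq_zero i
  intro j
  rw [Matrix.of_apply]
  by_cases hi : i = 0
  · subst hi
    rw [if_pos rfl, P.fderiv_eq_zero h0, h0]
    simp
  · rw [if_neg hi, P.fderiv_eq_zero h0]
    rfl

theorem det_uf_outer {x : Fin (m + 1) → ℝ} (hx : P.Good x) (f : Fin (m + 1) → ι)
    (hR : R + 1 < G.nrm x) : (fderiv ℝ (uf P f) x).det = 0 := by
  have h : uf P f =ᶠ[𝓝 x] vf P f := by
    have ho : IsOpen {y : Fin (m + 1) → ℝ | R + 1 < G.nrm y} :=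
      isOpen_lt continuous_const (continuous_nrm G)
    filter_upwards [ho.mem_nhds hR] with y hy
    exact uf_eq_vf P f y (not_le.2 hy)
  rw [h.fderiv_eq, det_vf P hx]

theorem fderiv_cut_inner {x : Fin (m + 1) → ℝ} (hR : G.nrm x < R) :
    fderiv ℝ (G.cut R) x = 0 := by
  have : G.cut R =ᶠ[𝓝 x] fun _ => 1 := by
    filter_upwards [(G.isOpen_nball R).mem_nhds hR] with y hy
    exact G.cut_eq_one (le_of_lt hy)
  rw [this.fderiv_eq]
  simp

theorem fderiv_cut_outer {x : Fin (m + 1) → ℝ} (hR : R + 1 < G.nrm x) :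
    fderiv ℝ (G.cut R) x = 0 := by
  have : G.cut R =ᶠ[𝓝 x] fun _ => 0 := by
    have ho : IsOpen {y : Fin (m + 1) → ℝ | R + 1 < G.nrm y} :=
      isOpen_lt continuous_const (continuous_nrm G)
    filter_upwards [ho.mem_nhds hR] with y hy
    exact G.cut_eq_zero (le_of_lt hy)
  rw [this.fderiv_eq]
  simp

theorem det_uf_inner {x : Fin (m + 1) → ℝ} (hx : P.Good x) (f : Fin (m + 1) → ι)
    (hR : G.nrm x < R) : (fderiv ℝ (uf P f) x).det = dt P x f := by
  rw [det_uf P hx, dt]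
  congr 1
  ext i j
  rw [Matrix.of_apply, Matrix.of_apply, fderiv_cut_inner hR, G.cut_eq_one hR.le]
  by_cases hi : i = 0
  · subst hi
    simp
  · rw [if_neg hi]

theorem abs_det_uf_le {C2 : ℝ} (hC2 : FrameBound G C2) (hρ : 0 < ρ) (hN : 0 ≤ N)
    {x : Fin (m + 1) → ℝ} (hx : P.Good x) (f : Fin (m + 1) → ι) :
    |(fderiv ℝ (uf P f) x).det| ≤
      (m + 1).factorial * (C2 * ((1 + 2 * N) / ρ) + C2) ^ (m + 1) := by
  have h0 := hC2.1
  set φ : Fin (m + 1) → (Fin (m + 1) → ℝ) →L[ℝ] ℝ := fun i => if i = 0 then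
      G.cut R x • fderiv ℝ (P.χ (f 0)) x + P.χ (f 0) x • fderiv ℝ (G.cut R) x
      else fderiv ℝ (P.χ (f i)) x with hφ
  have h1 : (fderiv ℝ (uf P f) x).det =
      (Matrix.of fun i j => φ i (G.W x (Pi.single j 1))).det := by
    rw [det_rows_comp φ (G.W x), G.det_W, mul_one, det_uf P hx]
  rw [h1]
  have := Matrix.det_le (A := Matrix.of fun i j => φ i (G.W x (Pi.single j 1)))
    (abv := AbsoluteValue.abs) (x := C2 * ((1 + 2 * N) / ρ) + C2) (by
      intro i j
      show |φ i (G.W x (Pi.single j 1))| ≤ _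
      by_cases hi : i = 0
      · simp only [hφ, if_pos hi]
        rw [add_apply, smul_apply, smul_apply, smul_eq_mul, smul_eq_mul]
        refine (abs_add_le _ _).trans ?_
        rw [abs_mul, abs_mul, abs_of_nonneg (G.cut_nonneg R x), abs_of_nonneg (P.nonneg _ _)]
        have e1 := frame_χ P hC2 hρ hN hx (f 0) j
        have e2 := frame_cut P hC2 hx j
        have e3 := G.cut_le_one R x
        have e4 := P.le_one (f 0) x
        calc _ ≤ 1 * (C2 * ((1 + 2 * N) / ρ)) + 1 * C2 := by gcongr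
          _ = _ := by ring
      · simp only [hφ, if_neg hi]
        have e1 := frame_χ P hC2 hρ hN hx (f i) j
        linarith)
  simpa using this

/-- The interpolation map of an exponent. -/
noncomputable def ff (k : Fin (m + 1 + 1) × Fin (m + 1) →₀ ℕ) (y : Fin (m + 1) → ℝ) :
    Fin (m + 1) → ℝ := fun i => fint P (mono k (Fin.succ i)) y

/-- The monomial map of an exponent. -/
noncomputable def gg (k : Fin (m + 1 + 1) × Fin (m + 1) →₀ ℕ) (y : Fin (m + 1) → ℝ) :
    Fin (m + 1) → ℝ := fun i => eval y (mono k (Fin.succ i))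

theorem LL_ff (hρ : 0 < ρ) (hN : 0 ≤ N) (k : Fin (m + 1 + 1) × Fin (m + 1) →₀ ℕ) :
    LocallyLipschitz (ff P k) := by
  apply locallyLipschitz_pi
  intro i
  refine LL_add (LL_eval _) (LL_mul (locallyLipschitz_cut R) (LL_sub (LL_sum _ fun a => ?_)
    (LL_eval _)))
  exact LL_mul (P.locallyLipschitz_χ hρ hN a) (LocallyLipschitz.const _)

theorem LL_gg (k : Fin (m + 1 + 1) × Fin (m + 1) →₀ ℕ) :
    LocallyLipschitz (gg k : (Fin (m + 1) → ℝ) → _) := by
  apply locallyLipschitz_pi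
  intro i
  exact LL_eval _

theorem ff_eq_gg (k : Fin (m + 1 + 1) × Fin (m + 1) →₀ ℕ) (x : Fin (m + 1) → ℝ)
    (hx : x ∉ {x : Fin (m + 1) → ℝ | G.nrm x ≤ R + 1}) : ff P k x = gg k x := by
  have hx' : R + 1 < G.nrm x := not_le.1 hx
  funext i
  simp [ff, gg, fint, G.cut_eq_zero hx'.le]

theorem sum_det_ff (Q : MvPolynomial (Fin (m + 1 + 1) × Fin (m + 1)) ℝ) {x : Fin (m + 1) → ℝ}
    (hx : P.Good x) :
    ∑ k ∈ Q.support, Q.coeff k * (eval (0 : Fin (m + 1) → ℝ) (mono k 0) *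
      ((fderiv ℝ (ff P k) x).det - (fderiv ℝ (gg k) x).det)) =
      kap Q (ev 0) (fun j => Lf P x (Pi.single j 1)) -
        kap Q (ev 0) (fun j => dfv x (Pi.single j 1)) := by
  rw [kap, kap, ← Finset.sum_sub_distrib]
  refine Finset.sum_congr rfl fun k _ => ?_
  have h1 : (fderiv ℝ (ff P k) x).det =
      (Matrix.of fun i j => Lf P x (Pi.single j 1) (mono k (Fin.succ i))).det := by
    rw [det_fderiv_pi]
    · congr 1
      ext i j
      rw [Matrix.of_apply, Matrix.of_apply]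
      exact (hasFDerivAt_fint P hx (mono k (Fin.succ i)) (Pi.single j 1)).2
    · intro i
      exact (hasFDerivAt_fint P hx (mono k (Fin.succ i)) 0).1
  have h2 : (fderiv ℝ (gg k) x).det =
      (Matrix.of fun i j => dfv x (Pi.single j 1) (mono k (Fin.succ i))).det := by
    rw [det_fderiv_pi]
    · rfl
    · intro i
      exact differentiable_eval _ x
  rw [h1, h2, ev_apply]
  ring

end Main

end Pool.Agent.U86.Fil
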