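import Pool.Agent.U86.Fil.Gg

/-! # The gauges of a stratified group -/

open MeasureTheory MvPolynomial
open scoped ENNReal NNReal Topology

namespace Pool.Agent.U86.Fil

open Pool.Agent.TH630

variable {n : ℕ}

theorem dil_one (w : Fin n → ℕ) (x : Fin n → ℝ) : dil w 1 x = x := by
  funext i
  simp [dil]

theorem dil_dil (w : Fin n → ℕ) (s t : ℝ) (x : Fin n → ℝ) :
    dil w s (dil w t x) = dil w (s * t) x := by
  funext i
  simp only [dil, mul_pow]
  ring

theorem dil_zero_vec (w : Fin n → ℕ) (t : ℝ) : dil w t 0 = 0 := by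
  funext i
  simp [dil]

theorem continuous_dil (w : Fin n → ℕ) (t : ℝ) : Continuous (dil w t) := by
  unfold dil
  fun_prop

theorem norm_dil_le {w : Fin n → ℕ} (hw : ∀ i, 1 ≤ w i) {t : ℝ} (h0 : 0 ≤ t) (h1 : t ≤ 1)
    (x : Fin n → ℝ) : ‖dil w t x‖ ≤ t * ‖x‖ := by
  rw [pi_norm_le_iff_of_nonneg (by positivity)]
  intro i
  rw [dil, norm_mul, norm_pow, Real.norm_eq_abs t, abs_of_nonneg h0]
  have h2 : t ^ w i ≤ t := pow_le_of_le_one h0 h1 (by have := hw i; omega)
  have h3 := norm_le_pi_norm x i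
  gcongr

namespace Stratification

variable {G : NilLaw n} (S : Stratification G)

theorem dil_inv {t : ℝ} (ht : 0 < t) (x : Fin n → ℝ) :
    dil S.w t (G.inv x) = G.inv (dil S.w t x) := by
  have h := S.dil_mul t ht (G.inv x) x
  rw [G.invMul, dil_zero_vec] at h
  have h2 : G.mul (G.mul (dil S.w t (G.inv x)) (dil S.w t x)) (G.inv (dil S.w t x)) =
      G.mul 0 (G.inv (dil S.w t x)) := by rw [h]
  rwa [G.mulA, G.mulInv, G.mulZero, G.zeroMul] at h2

theorem nrm_le_cost {y : Fin n → ℝ} (h1 : ‖y‖ ≤ 1) (h2 : ‖G.inv y‖ ≤ 1) : G.nrm y ≤ G.cost y := by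
  apply Pool.Agent.TH620.J78.nrm_le
  refine ⟨[y], ?_, ?_, ?_⟩
  · intro s hs
    rw [List.mem_singleton] at hs
    subst hs
    exact ⟨h1, h2⟩
  · simp
  · simp

theorem nrm_dil_le {t : ℝ} (h0 : 0 < t) (h1 : t ≤ 1) (x : Fin n → ℝ) :
    G.nrm (dil S.w t x) ≤ t * G.nrm x := by
  have key : ∀ l : List (Fin n → ℝ), (∀ s ∈ l, ‖s‖ ≤ 1 ∧ ‖G.inv s‖ ≤ 1) →
      G.nrm (dil S.w t (l.foldr G.mul 0)) ≤ t * (l.map G.cost).sum := by
    intro l
    induction l with
    | nil =>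
      intro _
      simp [dil_zero_vec, nrm_zero]
    | cons a l ih =>
      intro h
      rw [List.foldr_cons, List.map_cons, List.sum_cons, ← S.dil_mul t h0]
      refine (nrm_mul_le G _ _).trans ?_
      have h2 := ih (fun s hs => h s (List.mem_cons_of_mem _ hs))
      have ha := h a (List.mem_cons_self)
      have e1 := norm_dil_le S.one_le h0.le h1 a
      have e2 := norm_dil_le S.one_le h0.le h1 (G.inv a)
      rw [S.dil_inv h0] at e2
      have h3 : G.nrm (dil S.w t a) ≤ t * G.cost a := by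
        refine (nrm_le_cost ?_ ?_).trans ?_
        · exact e1.trans (by nlinarith [norm_nonneg a])
        · exact e2.trans (by nlinarith [norm_nonneg (G.inv a)])
        · rw [NilLaw.cost, NilLaw.cost]
          linarith
      rw [mul_add]
      linarith
  have h2 : G.nrm (dil S.w t x) / t ≤ G.nrm x := by
    apply le_csInf (costs_nonempty G x)
    rintro c ⟨l, hl, hx, hc⟩
    rw [div_le_iff₀ h0, ← hc, ← hx, mul_comm]
    exact key l hl
  rw [div_le_iff₀ h0] at h2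
  linarith

/-- The elements `x` with `nrm (dil ρ x) ≤ K ρ` for all `ρ ≥ 1`. -/
def E (K : ℝ) : Set (Fin n → ℝ) := {x | ∀ ρ : ℝ, 1 ≤ ρ → G.nrm (dil S.w ρ x) ≤ K * ρ}

theorem isClosed_E (K : ℝ) : IsClosed (S.E K) := by
  have : S.E K = ⋂ (ρ : ℝ) (_ : 1 ≤ ρ), {x | G.nrm (dil S.w ρ x) ≤ K * ρ} := by
    ext x
    simp [E]
  rw [this]
  refine isClosed_iInter fun ρ => isClosed_iInter fun _ => ?_
  exact isClosed_le ((continuous_nrm G).comp (continuous_dil S.w ρ)) continuous_const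

theorem E_mono {K K' : ℝ} (h : K ≤ K') : S.E K ⊆ S.E K' := by
  intro x hx ρ hρ
  refine (hx ρ hρ).trans ?_
  gcongr

theorem first_layer {g : Fin n → ℝ}
    (hg : ∀ s t : ℝ, 0 < s → 0 < t → G.mul (dil S.w s g) (dil S.w t g) = dil S.w (s + t) g) :
    g ∈ S.E (G.nrm g) := by
  intro ρ hρ
  have hpow : ∀ (m : ℕ) (t : ℝ), 0 < t → G.nrm (dil S.w ((m + 1 : ℕ) * t) g) ≤
      (m + 1 : ℕ) * G.nrm (dil S.w t g) := by
    intro m t ht
    induction m with
    | zero => simp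
    | succ m ih =>
      have h1 : ((m + 1 + 1 : ℕ) : ℝ) * t = (m + 1 : ℕ) * t + t := by push_cast; ring
      rw [h1, ← hg _ _ (by positivity) ht]
      refine (nrm_mul_le G _ _).trans ?_
      have h2 : ((m + 1 + 1 : ℕ) : ℝ) * G.nrm (dil S.w t g) =
        (m + 1 : ℕ) * G.nrm (dil S.w t g) + G.nrm (dil S.w t g) := by push_cast; ring
      rw [h2]
      linarith
  obtain ⟨m, hm⟩ : ∃ m : ℕ, ρ ≤ (m + 1 : ℕ) := by
    obtain ⟨m, hm⟩ := exists_nat_ge ρ
    exact ⟨m, hm.trans (by push_cast; linarith)⟩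
  have hm0 : (0 : ℝ) < (m + 1 : ℕ) := by positivity
  have h1 := hpow m (ρ / (m + 1 : ℕ)) (by positivity)
  rw [mul_div_cancel₀ _ hm0.ne'] at h1
  have h2 := S.nrm_dil_le (t := ρ / (m + 1 : ℕ)) (by positivity) (by rw [div_le_one hm0]; exact hm) g
  calc G.nrm (dil S.w ρ g) ≤ (m + 1 : ℕ) * G.nrm (dil S.w (ρ / (m + 1 : ℕ)) g) := h1
    _ ≤ (m + 1 : ℕ) * (ρ / (m + 1 : ℕ) * G.nrm g) := by gcongr
    _ = G.nrm g * ρ := by field_simp

theorem mul_mem_E {x y : Fin n → ℝ} {K K' : ℝ} (hx : x ∈ S.E K) (hy : y ∈ S.E K') :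
    G.mul x y ∈ S.E (K + K') := by
  intro ρ hρ
  rw [← S.dil_mul ρ (by linarith)]
  refine (nrm_mul_le G _ _).trans ?_
  have := hx ρ hρ
  have := hy ρ hρ
  rw [add_mul]
  linarith

theorem inv_mem_E {x : Fin n → ℝ} {K : ℝ} (hx : x ∈ S.E K) : G.inv x ∈ S.E K := by
  intro ρ hρ
  rw [S.dil_inv (by linarith), nrm_inv]
  exact hx ρ hρ

theorem exists_mem_E (x : Fin n → ℝ) : ∃ K : ℝ, x ∈ S.E K := by
  obtain ⟨l, hl, rfl⟩ := S.gen x
  induction l with
  | nil =>
    refine ⟨0, fun ρ _ => ?_⟩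
    simp [dil_zero_vec, nrm_zero]
  | cons a l ih =>
    obtain ⟨K, hK⟩ := ih (fun g hg => hl g (List.mem_cons_of_mem _ hg))
    exact ⟨_, S.mul_mem_E (S.first_layer (hl a List.mem_cons_self)) hK⟩

theorem continuous_mulRight (u : Fin n → ℝ) : Continuous fun y => G.mul y u :=
  (G.contDiff_mul (m := 0) contDiff_id contDiff_const).continuous

/-- Uniform estimate on bounded sets. -/
theorem bounded (R : ℝ) : ∃ K : ℝ, 0 < K ∧ ∀ x : Fin n → ℝ, ‖x‖ ≤ R → ∀ ρ : ℝ, 1 ≤ ρ →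
    G.nrm (dil S.w ρ x) ≤ K * ρ := by
  obtain ⟨k, u, hu⟩ : ∃ k : ℕ, (interior (S.E (k : ℝ))).Nonempty := by
    apply nonempty_interior_of_iUnion_of_closed (fun k : ℕ => S.isClosed_E (k : ℝ))
    rw [Set.eq_univ_iff_forall]
    intro x
    obtain ⟨K, hK⟩ := S.exists_mem_E x
    obtain ⟨k, hk⟩ := exists_nat_ge K
    exact Set.mem_iUnion.2 ⟨k, S.E_mono hk hK⟩
  have huE : u ∈ S.E (k : ℝ) := interior_subset hu
  have hV : {y : Fin n → ℝ | G.mul y u ∈ interior (S.E (k : ℝ))} ∈ 𝓝 (0 : Fin n → ℝ) := by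
    apply (continuous_mulRight (G := G) u).continuousAt.preimage_mem_nhds
    rw [G.zeroMul]
    exact isOpen_interior.mem_nhds hu
  obtain ⟨ε, hε, hball⟩ := Metric.mem_nhds_iff.1 hV
  have hsmall : ∀ y : Fin n → ℝ, ‖y‖ < ε → y ∈ S.E ((k : ℝ) + k) := by
    intro y hy
    have h1 : G.mul y u ∈ S.E (k : ℝ) := interior_subset (hball (by simpa using hy))
    have h2 := S.mul_mem_E h1 (S.inv_mem_E huE)
    rwa [G.mulA, G.mulInv, G.mulZero] at h2
  obtain ⟨l, hl⟩ := exists_nat_gt (max 1 (R / ε))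
  have hl1 : (1 : ℝ) < l := lt_of_le_of_lt (le_max_left _ _) hl
  have hl0 : (0 : ℝ) < l := by linarith
  have hl2 : R / ε < l := lt_of_le_of_lt (le_max_right _ _) hl
  refine ⟨((k : ℝ) + k) * l + 1, by positivity, fun x hx ρ hρ => ?_⟩
  have h1 : ‖dil S.w (l : ℝ)⁻¹ x‖ < ε := by
    refine (norm_dil_le S.one_le (by positivity) (inv_le_one_of_one_le₀ hl1.le) x).trans_lt ?_
    rw [div_lt_iff₀ hε] at hl2
    rw [inv_mul_lt_iff₀ hl0]
    linarith
  have h2 := hsmall _ h1 (ρ * l) (by nlinarith)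
  rw [dil_dil, mul_assoc, mul_inv_cancel₀ hl0.ne', mul_one] at h2
  nlinarith

/-- The family of gauges of a stratified group. -/
noncomputable def gauge (S : Stratification G) : Gg G where
  Nr ρ x := max 1 ρ * G.nrm (dil S.w (max 1 ρ)⁻¹ x)
  w := S.w
  Nr_nonneg {ρ} hρ x := by
    have h1 : (1 : ℝ) ≤ max 1 ρ := le_max_left _ _
    have h2 := nrm_nonneg G (dil S.w (max 1 ρ)⁻¹ x)
    positivity
  Nr_le_nrm {ρ} hρ x := by
    have h1 : (1 : ℝ) ≤ max 1 ρ := le_max_left _ _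
    have h0 : (0 : ℝ) < max 1 ρ := by linarith
    have h2 := S.nrm_dil_le (t := (max 1 ρ)⁻¹) (by positivity) (inv_le_one_of_one_le₀ h1) x
    calc max 1 ρ * G.nrm (dil S.w (max 1 ρ)⁻¹ x) ≤ max 1 ρ * ((max 1 ρ)⁻¹ * G.nrm x) := by gcongr
      _ = G.nrm x := by field_simp
  Nr_mul_le {ρ} hρ x y := by
    have h1 : (1 : ℝ) ≤ max 1 ρ := le_max_left _ _
    have h0 : (0 : ℝ) < max 1 ρ := by linarith
    rw [← S.dil_mul _ (by positivity), ← mul_add]
    gcongr
    exact nrm_mul_le G _ _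
  Nr_inv {ρ} hρ x := by
    have h1 : (1 : ℝ) ≤ max 1 ρ := le_max_left _ _
    have h0 : (0 : ℝ) < max 1 ρ := by linarith
    rw [S.dil_inv (by positivity), nrm_inv]
  Nr_zero {ρ} hρ := by rw [dil_zero_vec, nrm_zero, mul_zero]
  nrm_le_of_Nr c hc := by
    obtain ⟨C1, hC1, D, hgr⟩ := nrm_growth G
    obtain ⟨K, hK0, hK⟩ := S.bounded (C1 * (1 + c) ^ D)
    refine ⟨K + 1, by positivity, fun ρ hρ x hx => ?_⟩
    have hρ0 : 0 < ρ := by linarith
    rw [max_eq_right hρ] at hx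
    have h1 : G.nrm (dil S.w ρ⁻¹ x) ≤ c := by nlinarith
    have h2 : ‖dil S.w ρ⁻¹ x‖ ≤ C1 * (1 + c) ^ D := by
      refine (hgr _).trans ?_
      have := nrm_nonneg G (dil S.w ρ⁻¹ x)
      gcongr
    have h3 := hK _ h2 ρ hρ
    rw [dil_dil, mul_inv_cancel₀ hρ0.ne', dil_one] at h3
    nlinarith
  Cj := (nrm_le_small G).choose_spec.2.choose
  Cj_pos := (nrm_le_small G).choose_spec.2.choose_spec.1
  coord ρ hρ j := by
    obtain ⟨hδ, hrest⟩ := (nrm_le_small G).choose_spec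
    have hC := (nrm_le_small G).choose_spec.2.choose_spec.1
    have hb := (nrm_le_small G).choose_spec.2.choose_spec.2
    set δ := (nrm_le_small G).choose with hδdef
    set C := (nrm_le_small G).choose_spec.2.choose with hCdef
    have hρ0 : 0 < ρ := by linarith
    have h0 : ∀ᶠ s : ℝ in 𝓝 0, |s| < δ := by
      have := Metric.ball_mem_nhds (0 : ℝ) hδ
      filter_upwards [this] with s hs
      simpa using hs
    filter_upwards [h0] with s hs
    rw [max_eq_right hρ, mul_div_assoc, mul_comm, div_mul_cancel₀ _ hρ0.ne']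
    have h1 : dil S.w ρ⁻¹ (s • (Pi.single j 1 : Fin n → ℝ)) =
        ((ρ ^ S.w j)⁻¹ * s) • (Pi.single j 1 : Fin n → ℝ) := by
      funext i
      by_cases hij : i = j
      · subst hij
        simp [dil]
      · simp [dil, hij]
    have h2 : ‖((ρ ^ S.w j)⁻¹ * s) • (Pi.single j 1 : Fin n → ℝ)‖ = (ρ ^ S.w j)⁻¹ * |s| := by
      rw [norm_smul, Pi.norm_single, norm_one, mul_one, Real.norm_eq_abs, abs_mul,
        abs_of_pos (by positivity)]
    have h3 : (ρ ^ S.w j)⁻¹ * |s| ≤ |s| := by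
      have h4 : (ρ ^ S.w j)⁻¹ ≤ 1 := inv_le_one_of_one_le₀ (one_le_pow₀ hρ)
      nlinarith [abs_nonneg s]
    rw [h1]
    have h4 := hb _ (by rw [h2]; exact h3.trans hs.le)
    rw [h2] at h4
    refine h4.trans (le_of_eq ?_)
    rw [div_eq_mul_inv]
    ring

/-- A non-commutative stratified group has homogeneous dimension larger than its dimension. -/
theorem lt_homDim (hG : ∃ x y, G.mul x y ≠ G.mul y x) : n < S.homDim := by
  by_contra hcon
  have hle : ∑ i, S.w i ≤ n := by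
    rw [not_lt, homDim] at hcon
    exact hcon
  have hw : ∀ i, S.w i = 1 := by
    by_contra h
    push Not at h
    obtain ⟨i, hi⟩ := h
    have h1 : ∑ i : Fin n, 1 < ∑ i, S.w i := by
      apply Finset.sum_lt_sum (fun i _ => S.one_le i)
      exact ⟨i, Finset.mem_univ _, lt_of_le_of_ne (S.one_le i) (Ne.symm hi)⟩
    simp at h1
    omega
  have hdil : ∀ (t : ℝ) (x : Fin n → ℝ), dil S.w t x = t • x := by
    intro t x
    funext i
    simp [dil, hw i]
  have hhom : ∀ t : ℝ, 0 < t → ∀ x y : Fin n → ℝ, G.mul (t • x) (t • y) = t • G.mul x y := by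
    intro t ht x y
    rw [← hdil, ← hdil, ← hdil, S.dil_mul t ht]
  have hadd : ∀ x y : Fin n → ℝ, G.mul x y = x + y := by
    intro x y
    have hd : Differentiable ℝ (fun p : (Fin n → ℝ) × (Fin n → ℝ) => G.mul p.1 p.2) :=
      (G.contDiff_mul₂ 1).differentiable one_ne_zero
    set L := fderiv ℝ (fun p : (Fin n → ℝ) × (Fin n → ℝ) => G.mul p.1 p.2) 0 with hL
    have hLd : HasFDerivAt (fun p : (Fin n → ℝ) × (Fin n → ℝ) => G.mul p.1 p.2) L 0 :=
      (hd 0).hasFDerivAt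
    have hcurve : ∀ a b : Fin n → ℝ, HasDerivAt (fun t : ℝ => G.mul (t • a) (t • b)) (L (a, b)) 0 := by
      intro a b
      have h1 : HasDerivAt (fun t : ℝ => (t • a, t • b)) (a, b) 0 := by
        have h2 := (hasDerivAt_id (0 : ℝ)).smul_const a
        have h3 := (hasDerivAt_id (0 : ℝ)).smul_const b
        simpa using h2.prodMk h3
      have h2 : HasFDerivAt (fun p : (Fin n → ℝ) × (Fin n → ℝ) => G.mul p.1 p.2) L
          ((fun t : ℝ => (t • a, t • b)) 0) := by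
        have h0 : (fun t : ℝ => (t • a, t • b)) 0 = 0 := by simp
        rw [h0]
        exact hLd
      exact h2.comp_hasDerivAt (0 : ℝ) h1
    have hl : L (x, 0) = x := by
      have h1 := hcurve x 0
      simp only [smul_zero, G.mulZero] at h1
      have h2 : HasDerivAt (fun t : ℝ => t • x) x 0 := by
        simpa using (hasDerivAt_id (0 : ℝ)).smul_const x
      exact h1.unique h2
    have hr : L (0, y) = y := by
      have h1 := hcurve 0 y
      simp only [smul_zero, G.zeroMul] at h1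
      have h2 : HasDerivAt (fun t : ℝ => t • y) y 0 := by
        simpa using (hasDerivAt_id (0 : ℝ)).smul_const y
      exact h1.unique h2
    have hxy : L (x, y) = x + y := by
      have : (x, y) = (x, (0 : Fin n → ℝ)) + ((0 : Fin n → ℝ), y) := by simp
      rw [this, map_add, hl, hr]
    have h1 := (hcurve x y).tendsto_slope_zero_right
    have h2 : Filter.Tendsto (fun t : ℝ => t⁻¹ • (G.mul ((0 + t) • x) ((0 + t) • y) -
        G.mul ((0 : ℝ) • x) ((0 : ℝ) • y))) (𝓝[>] 0) (𝓝 (G.mul x y)) := by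
      apply tendsto_const_nhds.congr'
      filter_upwards [self_mem_nhdsWithin] with t ht
      have ht' : (0 : ℝ) < t := ht
      rw [zero_add, zero_smul, zero_smul, G.mulZero, sub_zero, hhom t ht', smul_smul,
        inv_mul_cancel₀ ht'.ne', one_smul]
    have h3 := tendsto_nhds_unique h1 h2
    rw [← h3, hxy]
  obtain ⟨x, y, hxy⟩ := hG
  apply hxy
  rw [hadd, hadd, add_comm]

end Stratification

end Pool.Agent.U86.Fil
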