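import Pool.Agent.U86.Fil.Final
import Pool.Agent.U86.Fil.FPhi
import Pool.Agent.U86.Fil.Strat

/-! # The product inequality for the filling exponents -/

open MeasureTheory MvPolynomial
open scoped ENNReal NNReal Topology

namespace Pool.Agent.U86.Fil

open Pool.Agent.TH630

variable {n m : ℕ}

theorem weight_le_pw (G : NilLaw (m + 1)) (D : Gg G) (B : Matrix (Fin (m + 1)) (Fin (m + 1)) ℝ)
    (hB : B.PosDef) {α : ℕ → ℝ} (hα : ∀ i, 1 ≤ α i)
    (hFV : ∀ j, j + 2 ≤ m + 1 → FVle G B (j + 1) (α (j + 1))) :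
    ((∑ j, D.w j : ℕ) : ℝ) ≤ pw α (m + 1) := by
  by_contra hcon
  push Not at hcon
  set p : ℝ := pw α (m + 1) with hp
  set w : ℕ := ∑ j, D.w j with hw
  obtain ⟨Q, hQ⟩ := exists_barPoly G
  have hQ' : IsVolPoly G Q := hQ
  obtain ⟨C2, hC2⟩ := G.exists_frame_bound
  have hC2' : FrameBound G C2 := hC2
  obtain ⟨K3, hK30, hK3⟩ := D.nrm_le_of_Nr 3 (by norm_num)
  obtain ⟨K4, hK40, hK4⟩ := D.nrm_le_of_Nr 4 (by norm_num)
  obtain ⟨Cg, d, hpoly⟩ := G.vg_poly
  obtain ⟨N, hN, hdoub⟩ := exists_doubling G.vg G.vg_pos Cg d hpoly (max 1 (2 * K3))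
    (le_max_left _ _)
  obtain ⟨A, hA, hcoch⟩ := exists_cochains G B hB hα hFV K4 hK40.le
  set c0 : ℝ := (m + 1).factorial * (volume (corner (m + 1))).toReal with hc0
  have hc0pos : 0 < c0 := by
    have h1 : 0 < (volume (corner (m + 1))).toReal :=
      ENNReal.toReal_pos (volume_corner_pos _).ne' (volume_corner_lt_top _).ne
    positivity
  -- large scales
  have hlarge : ∃ r0 : ℝ, 1 ≤ r0 ∧ ∀ ρ : ℝ, r0 ≤ ρ →
      N ^ (m + 2) * (C3 m D.Cj N / ρ ^ w * (A * ρ ^ p)) ≤ c0 / 2 := by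
    have hlim := tendsto_rpow_neg_atTop (y := (w : ℝ) - p) (by linarith)
    have hlim2 := hlim.const_mul (N ^ (m + 2) * C3 m D.Cj N * A)
    rw [mul_zero] at hlim2
    have hev := hlim2.eventually (gt_mem_nhds (show (0 : ℝ) < c0 / 2 by positivity))
    obtain ⟨r0, hr0⟩ := Filter.eventually_atTop.1 hev
    refine ⟨max 1 r0, le_max_left _ _, fun ρ hρ => ?_⟩
    have hρ1 : 1 ≤ ρ := (le_max_left _ _).trans hρ
    have hρ0 : 0 < ρ := by linarith
    have h1 := hr0 ρ ((le_max_right _ _).trans hρ)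
    refine le_trans (le_of_eq ?_) h1.le
    rw [neg_sub, Real.rpow_sub hρ0, Real.rpow_natCast]
    ring
  obtain ⟨r0, hr01, hr0⟩ := hlarge
  obtain ⟨r, hr, hr2⟩ := hdoub r0
  have hr1 : 1 ≤ r := hr01.trans hr
  set ρ : ℝ := 2 * r with hρdef
  have hρ1 : 1 ≤ ρ := by linarith
  have hρ0 : 0 < ρ := by linarith
  have hρC := hr0 ρ (by linarith)
  have hdbl : G.vg (K3 * ρ) ≤ N * G.vg (ρ / 2) := by
    have h1 : ρ / 2 = r := by rw [hρdef]; ring
    rw [h1]
    refine le_trans (G.vg_mono ?_) hr2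
    have h2 : 2 * K3 ≤ max 1 (2 * K3) := le_max_right _ _
    rw [hρdef]
    nlinarith
  obtain ⟨C, hC, F, h, hF, hh, hFh⟩ := hcoch ρ hρ1
  obtain ⟨Cc, hCc, hmain⟩ := main_ineq D hQ' hρ1 hN.le (hK4 ρ hρ1) hC2' F h hA.le hC.le hF hh hFh
    hc0 hρC
  obtain ⟨R, hR, hslow⟩ := exists_slow G.vg G.vg_pos Cg d hpoly (c0 / (4 * Cc)) (by positivity) 1
  obtain ⟨ι, hι, ⟨P⟩⟩ := exists_Pou D hρ1 hN (hK3 ρ hρ1) hdbl R
  have h1 := hmain R ι hι P
  have h2 : 0 < G.vg R := G.vg_pos R (by linarith)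
  have h3 : Cc * G.vg (R + 2) ≤ Cc * ((1 + c0 / (4 * Cc)) * G.vg R) := by gcongr
  have h4 : Cc * ((1 + c0 / (4 * Cc)) * G.vg R) = (Cc + c0 / 4) * G.vg R := by
    field_simp
  rw [h4] at h3
  have h5 := h1.trans h3
  have h6 : Cc + c0 / 2 ≤ Cc + c0 / 4 := le_of_mul_le_mul_right h5 h2
  linarith

/-- The product inequality: if `FV ^ {k+1} ≼ r ^ α k` for `1 ≤ k ≤ n - 1`, with `α k ≥ 1`, then
the homogeneous dimension is at most the product of the `α k`. -/
theorem homDim_le_prod (G : NilLaw n) (S : Stratification G) (B : Matrix (Fin n) (Fin n) ℝ)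
    (hB : B.PosDef) (α : ℕ → ℝ) (hα : ∀ k, 1 ≤ k → k + 1 ≤ n → 1 ≤ α k)
    (hFV : ∀ k, 1 ≤ k → k + 1 ≤ n → FVle G B k (α k)) :
    (S.homDim : ℝ) ≤ ∏ k ∈ Finset.Ico 1 n, α k := by
  rcases n with _ | m
  · simp [Stratification.homDim]
  · set α' : ℕ → ℝ := fun k => if 1 ≤ k ∧ k + 1 ≤ m + 1 then α k else 1 with hα'
    have h1 : ∀ i, 1 ≤ α' i := by
      intro i
      simp only [hα']
      split_ifs with h
      · exact hα i h.1 h.2
      · exact le_rfl
    have h2 : pw α' (m + 1) = ∏ k ∈ Finset.Ico 1 (m + 1), α k := by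
      rw [pw]
      refine Finset.prod_congr rfl fun k hk => ?_
      rw [Finset.mem_Ico] at hk
      simp only [hα']
      rw [if_pos ⟨hk.1, by omega⟩]
    have h3 : ∀ j, j + 2 ≤ m + 1 → FVle G B (j + 1) (α' (j + 1)) := by
      intro j hj
      simp only [hα']
      rw [if_pos ⟨by omega, by omega⟩]
      exact hFV (j + 1) (by omega) (by omega)
    have h4 := weight_le_pw G S.gauge B hB h1 h3
    rw [h2] at h4
    exact h4

/-- The product of the Euclidean exponents is the dimension. -/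
theorem prod_euclid {n : ℕ} (hn : 1 ≤ n) :
    ∏ k ∈ Finset.Ico 1 n, (((k : ℝ) + 1) / k) = n := by
  induction n, hn using Nat.le_induction with
  | base => simp
  | succ n hn ih =>
    rw [Finset.prod_Ico_succ_top hn, ih]
    have : (n : ℝ) ≠ 0 := by positivity
    push_cast
    field_simp

end Pool.Agent.U86.Fil
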